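import Mathlib
import Pool.Agent.Helper61.BK.Quasi

set_option autoImplicit false

/-! An infinite connected 4-regular vertex-transitive graph without a periodic 2-factor: every
periodic spanning subgraph of it is a 0-factor or a 4-factor. -/

namespace Pool.Agent.Results.MP_f17f26_co.NoPeriodicTwoFactor

section Definitions

variable {V : Type} {G : SimpleGraph V}

/-- A `k`-factor of `G`: a spanning subgraph in which every vertex has degree exactly `k`. -/
def IsFactor (H : G.Subgraph) (k : ℕ) : Prop :=
  H.IsSpanning ∧ ∀ v : V, (H.neighborSet v).encard = k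

/-- `Stab(H)`: the automorphisms of `G` that send edges of `H` to edges of `H` and edges of `G`
not in `H` to edges of `G` not in `H`. They form a subgroup of `Aut(G) = (G ≃g G)`. -/
def Stab (H : G.Subgraph) : Subgroup (G ≃g G) where
  carrier := {g | (∀ e ∈ H.edgeSet, Sym2.map g e ∈ H.edgeSet) ∧
    ∀ e ∈ G.edgeSet \ H.edgeSet, Sym2.map g e ∈ G.edgeSet \ H.edgeSet}
  mul_mem' := by
    rintro g h ⟨hg1, hg2⟩ ⟨hh1, hh2⟩
    have key : ∀ e : Sym2 V, Sym2.map (g * h) e = Sym2.map g (Sym2.map h e) := by
      intro e
      rw [Sym2.map_map]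
      rfl
    refine ⟨fun e he => ?_, fun e he => ?_⟩
    · rw [key]; exact hg1 _ (hh1 _ he)
    · rw [key]; exact hg2 _ (hh2 _ he)
  one_mem' := by
    have key : ∀ e : Sym2 V, Sym2.map ((1 : G ≃g G) : V → V) e = e := fun e => Sym2.map_id' ▸ rfl
    refine ⟨fun e he => ?_, fun e he => ?_⟩
    · rw [key]; exact he
    · rw [key]; exact he
  inv_mem' := by
    rintro g ⟨hg1, hg2⟩
    have key : ∀ e : Sym2 V, Sym2.map g (Sym2.map (g⁻¹ : G ≃g G) e) = e := by
      intro e
      induction e with
      | _ x y =>
        show s(g (g.symm x), g (g.symm y)) = s(x, y)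
        rw [g.apply_symm_apply, g.apply_symm_apply]
    have mapG : ∀ e ∈ G.edgeSet, Sym2.map (g⁻¹ : G ≃g G) e ∈ G.edgeSet := by
      intro e
      induction e with
      | _ x y =>
        intro h
        show G.Adj (g.symm x) (g.symm y)
        rw [g.symm.map_adj_iff]
        exact h
    refine ⟨fun e he => ?_, fun e he => ⟨mapG e he.1, fun hc => ?_⟩⟩
    · by_contra hc
      have h := hg2 _ ⟨mapG e (H.edgeSet_subset he), hc⟩
      rw [key] at h
      exact h.2 he
    · have h := hg1 _ hc
      rw [key] at h
      exact he.2 h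

/-- A group `Γ` of automorphisms of `G` acts quasi-transitively: the vertex set splits into
finitely many `Γ`-orbits. -/
def QuasiTransitive (Γ : Subgroup (G ≃g G)) : Prop :=
  Finite (MulAction.orbitRel.Quotient Γ V)

/-- `H` is periodic: `Stab(H)` acts quasi-transitively on `G`. -/
def Periodic (H : G.Subgraph) : Prop :=
  QuasiTransitive (Stab H)

end Definitions

open Helper61 in
/-- There is an infinite connected 4-regular vertex-transitive graph `G` such that every periodic
spanning subgraph of `G` is a 0-factor or a 4-factor. In particular no 2-factor of `G` is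
periodic. -/
theorem result : ∃ (V : Type) (G : SimpleGraph V), Infinite V ∧ G.Connected ∧
    (∀ v : V, (G.neighborSet v).encard = 4) ∧ (∀ u v : V, ∃ g : G ≃g G, g u = v) ∧
    ∀ H : G.Subgraph, H.IsSpanning → Periodic H → IsFactor H 0 ∨ IsFactor H 4 := by
  have Y : Hyp ga gb := hypGm
  have h4 : ∀ v, (Y.Gr.neighborSet v).encard = 4 := by
    intro v
    have h := Y.nbhd_ncard v
    rw [← (Y.nbhd_finite v).cast_ncard_eq, h]
    rfl
  have main : ∀ F : Y.Gr.Subgraph, Periodic F → F.edgeSet = ∅ ∨ F.edgeSet = Y.Gr.edgeSet := by
    intro F hF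
    have hall := Y.Lm_mem' (Stab F) hF
    rcases Set.eq_empty_or_nonempty F.edgeSet with h0 | ⟨e, he⟩
    · exact Or.inl h0
    · right
      induction e with
      | _ u v =>
        have hadj : Y.Gr.Adj u v := F.edgeSet_subset he
        obtain ⟨x, s, hs, rfl, rfl⟩ := Y.arc_rep' hadj
        refine Set.Subset.antisymm F.edgeSet_subset ?_
        intro f hf
        induction f with
        | _ p q =>
          obtain ⟨y, t, ht, rfl, rfl⟩ := Y.arc_rep' (show Y.Gr.Adj p q from hf)
          by_cases hst : t = s
          · have h := (hall (y * x⁻¹)).1 _ he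
            rw [Sym2.map_mk, Y.Lm_cs, Y.Lm_cs, inv_mul_cancel_right, ← mul_assoc,
              inv_mul_cancel_right] at h
            rw [hst]
            exact h
          · have hts : t = s⁻¹ := by
              rcases Y.St_two hs hs.inv ht (by
                intro h
                have h2 := Y.sq hs
                rw [← h] at h2
                exact Y.ne_one hs (mul_eq_left.1 h2)) with h | h
              · exact absurd h hst
              · exact h
            have h := (hall (y * t * x⁻¹)).1 _ he
            rw [Sym2.map_mk, Y.Lm_cs, Y.Lm_cs, inv_mul_cancel_right, ← mul_assoc,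
              inv_mul_cancel_right, hts, inv_mul_cancel_right] at h
            rw [hts, Sym2.eq_swap]
            exact h
  refine ⟨VV gb, Y.Gr, Y.infin, Y.conn, h4, Y.vtrans, ?_⟩
  intro F hsp hper
  rcases main F hper with h | h
  · left
    refine ⟨hsp, fun w => ?_⟩
    have hs : F.neighborSet w = ∅ := by
      rw [Set.eq_empty_iff_forall_notMem]
      intro v hv
      have h1 : s(w, v) ∈ F.edgeSet := hv
      rw [h] at h1
      exact h1
    rw [hs, Set.encard_empty]
    rfl
  · right
    refine ⟨hsp, fun w => ?_⟩
    have hs : F.neighborSet w = Y.Gr.neighborSet w := by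
      ext v
      have h1 : s(w, v) ∈ F.edgeSet ↔ s(w, v) ∈ Y.Gr.edgeSet := by rw [h]
      exact h1
    rw [hs, h4 w]
    rfl

end Pool.Agent.Results.MP_f17f26_co.NoPeriodicTwoFactor
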